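import Mathlib
import Pool.Agent.H225R3.MargDefs
import Pool.Agent.Y399.MG.H
import Pool.Agent.U189.LV.Main

/-!
# Margulis' injectivity radius conjecture and congruence levels: an explicit bound

Let `Γ` be a group which is realized by integral matrices over a number field `k` of degree `d`, with
the set `S` of noncompact embeddings (the arithmetic lattices of semisimple groups are of this kind).
If `γ` in `Γ` is of infinite order and `γ ^ e ≡ 1` modulo an ideal `I` of norm `N`, then `γ` has an
eigenvalue `l` under one of the noncompact embeddings with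

`18 e |S| log |l| ≥ min (log N, (log N) ^ 2 / (d log (2 d)))`.

The same eigenvalue works for all `e` and `I`. There is no condition on the size of the matrices, on
the number of noncompact embeddings, on the degree and on `e`. If `k` is fixed, the bound is of the
order `log N / (e |S|)`, which is optimal (up to the constant factor) for the principal congruence
subgroups of level `I` (`e = 1`); for `d → ∞` the systole of the principal congruence subgroups of all
torsion-free arithmetic groups is bounded from below, uniformly, if `log N` is at least of the order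
`√(|S| d log d)`, and it tends to infinity if `log N / √(|S| d log d)` and `log N / |S|` do.

So for every `b > 0` the family of all the torsion-free groups whose elements `γ ≠ 1` satisfy such
congruences (with `e` and `I` which may depend on `γ`) with `min (...) ≥ b e |S|` is uniformly
discrete, which settles Margulis' conjecture for them.

The starting result `CongruenceLevels`, (1), is about the levels `N ≥ exp (b d ^ (1 / 2 + η))`, with
`e ≤ E d ^ (η / 4)` and `|S|` bounded, without explicit constants. It was proved by Siegel's lemma;
here the product of the differences of the first `K + 1` powers of the eigenvalue is estimated by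
Hadamard's inequality, which replaces `d ^ η` by a logarithm and separates the dependence on `e`
and `|S|`.

`Pool.Agent.H225R3.MargDefs` contains the definitions: `Realization ρ Γ k n S` (a homomorphism `r`
from `Γ` to the `n` by `n` matrices over the ring of integers of the number field `k`, bounded under
all embeddings outside `S`, such that for `σ` in `S` the eigenvalues of `σ (r γ)` are eigenvalues of
`ρ γ`, and such that only `1` is mapped to a unipotent matrix), `IsEig` (being an eigenvalue),
`conjMat` (applying an embedding to a matrix) and `UniformlyDiscrete` (there is an identity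
neighbourhood `U` such that `g U g⁻¹` meets every group of the family in the identity only).
-/

set_option autoImplicit false

namespace Pool.Agent.Results.MP_162bbe_gt.CongruenceExponents

open NumberField Module Pool.Agent.H225R3.Marg

universe u

/-- There is no element of finite order other than the identity. -/
def TorsionFree {G : Type*} [Group G] (Γ : Subgroup G) : Prop :=
  ∀ γ ∈ Γ, ∀ N : ℕ, 0 < N → γ ^ N = 1 → γ = 1

/-- `min (log N, (log N) ^ 2 / (d log (2 d)))`, where `N` is the norm of the ideal `I` of the ring of
integers of the number field `k` of degree `d`. (It is `0` for the zero ideal.) -/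
noncomputable def size {k : Type} [Field k] [NumberField k] (I : Ideal (𝓞 k)) : ℝ :=
  min (Real.log (Ideal.absNorm I))
    (Real.log (Ideal.absNorm I) ^ 2 / (finrank ℚ k * Real.log (2 * finrank ℚ k)))

/-- `(r γ) ^ e ≡ 1` modulo `I`, for the homomorphism `r` of the realization `R`. -/
def Congruent {G : Type*} [Group G] {M : ℕ} {ρ : G →* Matrix (Fin M) (Fin M) ℂ}
    {Γ : Subgroup G} {k : Type} [Field k] [NumberField k] {n : ℕ} {S : Finset (k →+* ℂ)}
    (R : Realization ρ Γ k n S) (I : Ideal (𝓞 k)) (e : ℕ) (γ : Γ) : Prop :=
  ∀ i j : Fin n, (R.r γ ^ e - 1) i j ∈ I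

/-- The torsion-free subgroups `Γ` of `G` that have a realization (of any size, over any number field,
with any set `S` of noncompact embeddings) such that for every `γ ≠ 1` in `Γ` there are an ideal `I` and
`e ≥ 1` with `(r γ) ^ e ≡ 1` modulo `I` and `size I ≥ b e |S|`. -/
def Family (b : ℝ) {G : Type*} [Group G] {M : ℕ} (ρ : G →* Matrix (Fin M) (Fin M) ℂ) :
    Set (Subgroup G) :=
  {Γ | TorsionFree Γ ∧
    ∃ (k : Type) (_ : Field k) (_ : NumberField k) (n : ℕ) (S : Finset (k →+* ℂ))
      (R : Realization ρ Γ k n S), ∀ γ : Γ, γ ≠ 1 → ∃ (I : Ideal (𝓞 k)) (e : ℕ), 0 < e ∧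
        Congruent R I e γ ∧ b * (e * S.card) ≤ size I}

/-- **Margulis' conjecture and congruence levels.**

1. Let `Γ` be a subgroup of `G` with a realization over a number field `k`, with the set `S` of
   noncompact embeddings. Every `γ` in `Γ` of infinite order has an eigenvalue `l` under one of the
   noncompact embeddings, which is also an eigenvalue of `ρ γ`, with `|l| > 1` and
   `size I ≤ 18 e |S| log |l|` for all ideals `I` and all `e ≥ 1` with `(r γ) ^ e ≡ 1` modulo `I`.
2. For every `b > 0` the family `Family b ρ` of subgroups of a topological group `G` is uniformly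
   discrete, for every continuous finite dimensional complex representation `ρ` of `G`. -/
theorem result :
    (∀ (G : Type u) [Group G] (M : ℕ) (ρ : G →* Matrix (Fin M) (Fin M) ℂ)
      (Γ : Subgroup G) (k : Type) [Field k] [NumberField k] (n : ℕ) (S : Finset (k →+* ℂ))
      (R : Realization ρ Γ k n S) (γ : Γ), ¬ IsOfFinOrder γ →
      ∃ σ ∈ S, ∃ l : ℂ, IsEig (conjMat σ (R.r γ)) l ∧ IsEig (ρ γ) l ∧ 1 < ‖l‖ ∧
        ∀ (I : Ideal (𝓞 k)) (e : ℕ), 0 < e → Congruent R I e γ →
          size I ≤ 18 * e * S.card * Real.log ‖l‖) ∧
    (∀ (G : Type u) [Group G] [TopologicalSpace G] (M : ℕ) (ρ : G →* Matrix (Fin M) (Fin M) ℂ),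
      Continuous ρ → ∀ b : ℝ, 0 < b → UniformlyDiscrete (Family b ρ)) := by
  refine ⟨?_, ?_⟩
  · intro G _ M ρ Γ k _ _ n S R γ hγ
    obtain ⟨σ, hσ, l, hl, hl1, h⟩ := Pool.Agent.U189.LV.level S (R.r γ)
      ((Group.isUnit γ).map R.r) (fun σ hσ l hl => R.comp' _ σ hσ l hl) (fun N hN h0 => by
        rw [← map_pow] at h0
        exact hγ (isOfFinOrder_iff_pow_eq_one.mpr ⟨N, hN, R.unipotent _ h0⟩))
    have hl' : IsEig (conjMat σ (R.r γ)) l := hl
    refine ⟨σ, hσ, l, hl', R.eig σ hσ γ l hl', hl1, fun I e he hI => ?_⟩
    have h1 := h I e he hI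
    unfold size
    linarith
  · intro G _ _ M ρ hρ b hb
    obtain ⟨ε, hε, heps⟩ := Pool.Agent.Y399.MG.exists_eps 18 b hb
    refine ⟨_, nhd ρ hρ ε hε, ?_⟩
    rintro Γ ⟨htf, k, _, _, n, S, R, hR⟩ g v hv hΓ
    by_cases hne : (⟨g * v * g⁻¹, hΓ⟩ : Γ) = 1
    · exact congrArg Subtype.val hne
    refine final_step' R htf ε hε g v hv hΓ fun hnil => ?_
    have hunit : IsUnit (R.r ⟨g * v * g⁻¹, hΓ⟩) :=
      (Group.isUnit (⟨g * v * g⁻¹, hΓ⟩ : Γ)).map R.r
    obtain ⟨σ, hσ, l, hl, hl1, h⟩ := Pool.Agent.U189.LV.level S _ hunit
      (fun σ hσ l hl => R.comp' _ σ hσ l hl) hnil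
    refine ⟨σ, hσ, l, hl, heps l ?_ hl1⟩
    obtain ⟨I, e, he, hcong, hb'⟩ := hR _ hne
    have h1 := hb'.trans (h I e he hcong)
    have hS : (0 : ℝ) < S.card := by exact_mod_cast Finset.card_pos.mpr R.nonempty
    have heR : (0 : ℝ) < e := by exact_mod_cast he
    have h2 : (e * S.card : ℝ) * b ≤ (e * S.card) * ((18 : ℕ) * Real.log ‖l‖) := by
      push_cast
      linarith
    exact le_of_mul_le_mul_left h2 (by positivity)

end Pool.Agent.Results.MP_162bbe_gt.CongruenceExponents
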