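import Mathlib
import Pool.Agent.U189.MI.Large

/-!
# Margulis' injectivity radius conjecture over number fields with a large subfield

Fix a prime number `p` and a power `q` of `p`. Let `F` be a number field (Galois over `ℚ` or not) with
an automorphism `τ` and a set `T` of prime ideals above `p`, such that `x ^ q ≡ τ x` modulo `P` for all
the integers `x` of `F` and all `P` in `T`, and such that the sum of the local degrees of the members
of `T` is at least `[F : ℚ] / B`. For `τ = 1` this means that a positive proportion of the prime ideals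
above `p`, counted with their local degrees, have bounded residue degrees; their ramification is
arbitrary. We prove Margulis' conjecture for the arithmetic groups over all number fields `k` which
contain such a field `F` with `[k : F] ≤ C [F : ℚ] ^ κ`, or which have an extension `K` of bounded
degree that does: all torsion-free arithmetic groups over these fields, realized by integral matrices
of a fixed size, with a bounded number of noncompact embeddings, form a uniformly discrete family.
The number `κ` is arbitrary, so that `F` may be a field of degree `[k : ℚ] ^ δ`; nothing is assumed on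
the splitting of `p` in `k`, and nothing on the noncompact embeddings.

If `T` contains all the prime ideals of `F` above `p`, and their ramification indices are at most `E`,
there is the explicit bound
`|l| ^ N ≥ exp ([F : ℚ] / (N cost))`, `N = s r n`, for the largest eigenvalue `l` of each element
different from `1` (at the noncompact embeddings), where
`cost = 10 p ^ (2 e + 1) E exp (√(3 e log p log (n [K : F]))) / log p`; so the injectivity radius tends
to infinity with `[k : ℚ]` if `[K : F] ≤ C [F : ℚ] ^ κ`.

The starting results `BoundedResidueDegrees` and `FrobeniusAutomorphisms` are about fields `k` with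
such properties themselves (`K` of bounded degree over `F`).

Method. The lower bounds for Mahler measures of the library `Q262/RL` (`key2`, `key4`, `ram_mahler`),
which were applied to Salem numbers (`MP_9599cf_nt/LargeSubfields`) and to Lehmer's problem
(`MP_7ab245_nt/LargeSubfields`), and the transfer principle of `MP_162bbe_gt/RamifiedFields`, over the
field `K`. The algebraic integers `β` to which it leads generate a field `M`, together with all their
powers, such that `[L : M] ≤ s r n` for an extension `L` of `K` of degree at most `n`; so no quotient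
of two distinct conjugates of `β` is a root of unity, and `[L : F] ≤ n [K : F]`.

`Pool.Agent.H225R3.MargDefs` contains the definitions: `Realization ρ Γ k n S` (a homomorphism `r`
from `Γ` to the `n` by `n` matrices over the ring of integers of the number field `k`, bounded under
all embeddings outside `S`, such that for `σ` in `S` the eigenvalues of `σ (r γ)` are eigenvalues of
`ρ γ`, and such that only `1` is mapped to a unipotent matrix), `IsEig` (being an eigenvalue),
`conjMat` (applying an embedding to a matrix) and `UniformlyDiscrete` (there is an identity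
neighbourhood `U` such that `g U g⁻¹` meets every group of the family in the identity only).
-/

set_option autoImplicit false

namespace Pool.Agent.Results.MP_162bbe_gt.LargeSubfields

open NumberField Module Pool.Agent.H225R3.Marg

universe u

/-- The number field `F` has an automorphism `τ` and a set `T` of prime ideals above `p` with
`x ^ q ≡ τ x` modulo `P` for all the integers `x` of `F` and all `P` in `T`, such that the sum of the
local degrees (products of ramification index and residue degree) of the members of `T` is at least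
`[F : ℚ] / B`. (For `B = 1` this means that all the prime ideals above `p` are in `T`.) -/
def HasFrobenius (p q B : ℕ) (F : Type) [Field F] [NumberField F] : Prop :=
  ∃ (τ : F ≃+* F) (T : Finset (Ideal (𝓞 F))),
    (∀ P ∈ T, P ∈ (Ideal.span {(p : ℤ)}).primesOver (𝓞 F) ∧
      ∀ x : 𝓞 F, x ^ q - RingOfIntegers.mapRingHom (τ : F →+* F) x ∈ P) ∧
    finrank ℚ F ≤ B * ∑ P ∈ T, P.ramificationIdx ℤ * P.inertiaDeg ℤ

/-- All the ramification indices of `F` above `p` are at most `E`. -/
def RamificationAtMost (p E : ℕ) (F : Type) [Field F] [NumberField F] : Prop :=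
  ∀ P ∈ (Ideal.span {(p : ℤ)}).primesOver (𝓞 F), P.ramificationIdx ℤ ≤ E

/-- The ramification indices of `F` above `p` are equal up to a factor of at most `B`. -/
def ComparableRamification (p B : ℕ) (F : Type) [Field F] [NumberField F] : Prop :=
  ∀ P ∈ (Ideal.span {(p : ℤ)}).primesOver (𝓞 F), ∀ Q ∈ (Ideal.span {(p : ℤ)}).primesOver (𝓞 F),
    P.ramificationIdx ℤ ≤ B * Q.ramificationIdx ℤ

/-- The condition on an extension of relative degree `D` of `F`: either `D` is at most
`C [F : ℚ] ^ κ`, and `x ^ (p ^ e) ≡ τ x` holds for at least the `B`-th part of the prime ideals above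
`p`, or it holds for all of them, their ramification indices are equal up to a factor `B`, and
`log (2 [F : ℚ] D) exp (√(3 e log p log D)) ≤ C [F : ℚ]`. -/
def IsLarge (p e B C κ : ℕ) (F : Type) [Field F] [NumberField F] (D : ℕ) : Prop :=
  (HasFrobenius p (p ^ e) B F ∧ D ≤ C * finrank ℚ F ^ κ) ∨
  (HasFrobenius p (p ^ e) 1 F ∧ ComparableRamification p B F ∧
    Real.log (2 * (finrank ℚ F * D)) * Real.exp (√(3 * (e * Real.log p) * Real.log D)) ≤
      C * finrank ℚ F)

/-- `10 p ^ (2 e + 1) E exp (√(3 e log p log D)) / log p` -/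
noncomputable def cost (p e E D : ℕ) : ℝ :=
  10 * (p : ℝ) ^ (2 * e + 1) * E * Real.exp (√(3 * (e * Real.log p) * Real.log D)) / Real.log p

/-- There is no element of finite order other than the identity. -/
def TorsionFree {G : Type*} [Group G] (Γ : Subgroup G) : Prop :=
  ∀ γ ∈ Γ, ∀ N : ℕ, 0 < N → γ ^ N = 1 → γ = 1

/-- Every `γ ≠ 1` in `Γ` has an eigenvalue `l` under one of the noncompact embeddings, which is also
an eigenvalue of `ρ γ`, with `|l| > 1` and `|l| ^ N ≥ μ`. -/
def EigenvalueBound {G : Type*} [Group G] {M : ℕ} {ρ : G →* Matrix (Fin M) (Fin M) ℂ}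
    {Γ : Subgroup G} {k : Type} [Field k] [NumberField k] {n : ℕ} {S : Finset (k →+* ℂ)}
    (R : Realization ρ Γ k n S) (N : ℕ) (μ : ℝ) : Prop :=
  ∀ γ : Γ, γ ≠ 1 → ∃ σ ∈ S, ∃ l : ℂ, IsEig (conjMat σ (R.r γ)) l ∧ IsEig (ρ γ) l ∧
    1 < ‖l‖ ∧ μ ≤ ‖l‖ ^ N

/-- The torsion-free subgroups `Γ` of `G` that have a realization by matrices of size `n`, with at
most `s` noncompact embeddings, over a number field `k` which has an extension `K` of degree at most
`r` which contains a number field `F` with `IsLarge p e B C κ F [K : F]`. -/
def Family (p e B C κ r s n : ℕ) {G : Type*} [Group G] {M : ℕ}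
    (ρ : G →* Matrix (Fin M) (Fin M) ℂ) : Set (Subgroup G) :=
  {Γ | TorsionFree Γ ∧
    ∃ (k : Type) (_ : Field k) (_ : NumberField k) (S : Finset (k →+* ℂ))
      (_ : Realization ρ Γ k n S) (K F : Type) (_ : Field K) (_ : NumberField K) (_ : Algebra k K)
      (_ : Field F) (_ : NumberField F) (_ : Algebra F K),
      S.card ≤ s ∧ finrank k K ≤ r ∧ IsLarge p e B C κ F (finrank F K)}

/-- **Margulis' conjecture for number fields with a large subfield.** Let `p` be a prime number and
`e ≥ 1`.

1. For all `B`, `C`, `κ`, `r`, `s`, `n` there is `μ > 1` such that the following holds. Let `Γ` be a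
   torsion-free group with a realization of size `n` over a number field `k`, with at most `s`
   noncompact embeddings, and `K` an extension of `k` of degree at most `r` which contains a number
   field `F` with `IsLarge p e B C κ F [K : F]`. Every `γ ≠ 1` in `Γ` has an eigenvalue `l` under one
   of the noncompact embeddings, which is also an eigenvalue of `ρ γ`, with `|l| ≥ μ`. Hence the family
   of all these subgroups `Γ` of a topological group `G` is uniformly discrete, for every continuous
   finite dimensional complex representation `ρ` of `G`.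
2. If `Γ`, `k`, `K` and `F` are as above, but `x ^ (p ^ e) ≡ τ x` modulo all the prime ideals of `F`
   above `p`, and the ramification indices of `F` above `p` are at most `E`, instead of `IsLarge`, then
   every `γ ≠ 1` in `Γ` has such an eigenvalue with
   `|l| ^ N ≥ exp ([F : ℚ] / (N * cost p e E (n [K : F])))`, where `N = s r n`.
3. `HasFrobenius p (p ^ f!) B F` holds if the prime ideals of `F` above `p` of residue degree at most
   `f` account for at least the proportion `1 / B` of the degree of `F`. -/
theorem result (p e : ℕ) (hp : p.Prime) (he : 0 < e) :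
    (∀ B C κ r s n : ℕ, (∃ μ : ℝ, 1 < μ ∧
      ∀ (G : Type u) [Group G] (M : ℕ) (ρ : G →* Matrix (Fin M) (Fin M) ℂ)
        (Γ : Subgroup G) (k K F : Type) [Field k] [NumberField k] [Field K] [NumberField K]
        [Algebra k K] [Field F] [NumberField F] [Algebra F K] (S : Finset (k →+* ℂ))
        (R : Realization ρ Γ k n S), TorsionFree Γ → S.card ≤ s → finrank k K ≤ r →
        IsLarge p e B C κ F (finrank F K) → EigenvalueBound R 1 μ) ∧
      ∀ (G : Type u) [Group G] [TopologicalSpace G] (M : ℕ) (ρ : G →* Matrix (Fin M) (Fin M) ℂ),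
        Continuous ρ → UniformlyDiscrete (Family p e B C κ r s n ρ)) ∧
    (∀ (G : Type u) [Group G] (M : ℕ) (ρ : G →* Matrix (Fin M) (Fin M) ℂ)
      (Γ : Subgroup G) (k K F : Type) [Field k] [NumberField k] [Field K] [NumberField K]
      [Algebra k K] [Field F] [NumberField F] [Algebra F K] (E r s n : ℕ) (S : Finset (k →+* ℂ))
      (R : Realization ρ Γ k n S), TorsionFree Γ → S.card ≤ s → finrank k K ≤ r →
      HasFrobenius p (p ^ e) 1 F → RamificationAtMost p E F →
      EigenvalueBound R (s * r * n)
        (Real.exp (finrank ℚ F / (cost p e E (n * finrank F K) * (s * r * n : ℕ))))) ∧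
    (∀ (F : Type) [Field F] [NumberField F] (f B : ℕ) (T : Finset (Ideal (𝓞 F))),
      (∀ P ∈ T, P ∈ (Ideal.span {(p : ℤ)}).primesOver (𝓞 F) ∧ P.inertiaDeg ℤ ≤ f) →
      finrank ℚ F ≤ B * ∑ P ∈ T, P.ramificationIdx ℤ * P.inertiaDeg ℤ →
      HasFrobenius p (p ^ f.factorial) B F) := by
  have aux : ∀ {G : Type u} [Group G] {M : ℕ} {ρ : G →* Matrix (Fin M) (Fin M) ℂ}
      {Γ : Subgroup G} {k : Type} [Field k] [NumberField k] {n : ℕ} {S : Finset (k →+* ℂ)}
      (R : Realization ρ Γ k n S) (_ : TorsionFree Γ)
      (γ : Γ), γ ≠ 1 → ∀ N : ℕ, 0 < N → ¬ IsNilpotent (R.r γ ^ N - 1) := by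
    intro G _ M ρ Γ k _ _ n S R htf γ hγ N hN h0
    rw [← map_pow] at h0
    have h1 := R.unipotent _ h0
    have h2 : (γ : G) ^ N = 1 := congrArg Subtype.val h1
    exact hγ (Subtype.ext (htf _ γ.2 N hN h2))
  refine ⟨fun B C κ r s n => ⟨?_, ?_⟩, ?_, ?_⟩
  · obtain ⟨μ, hμ, h⟩ := Pool.Agent.U189.MI.large_gap hp he B C κ s r n
    refine ⟨Real.exp (μ / ((s * r * n : ℕ) + 1)), Real.one_lt_exp_iff.2 (by positivity), ?_⟩
    intro G _ M ρ Γ k K F _ _ _ _ _ _ _ _ S R htf hs hr hF γ hγ
    obtain ⟨σ, hσ, l, hl, hl1, hlow⟩ := h k K F S (R.r γ) hs hr hF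
      ((Group.isUnit γ).map R.r) (fun σ hσ l hl => R.comp' _ σ hσ l hl) (aux R htf γ hγ)
    have hl' : IsEig (conjMat σ (R.r γ)) l := hl
    refine ⟨σ, hσ, l, hl', R.eig σ hσ γ l hl', hl1, ?_⟩
    rw [pow_one, ← Real.le_log_iff_exp_le (by linarith), div_le_iff₀ (by positivity)]
    have h1 : 0 < Real.log ‖l‖ := Real.log_pos hl1
    linarith
  · intro G _ _ M ρ hρ
    obtain ⟨μ, hμ, h⟩ := Pool.Agent.U189.MI.large_gap hp he B C κ s r n
    obtain ⟨ε, hε, heps⟩ := Pool.Agent.Y399.MG.exists_eps (s * r * n) μ hμ
    refine ⟨_, nhd ρ hρ ε hε, ?_⟩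
    rintro Γ ⟨htf, k, _, _, S, R, K, F, _, _, _, _, _, _, hs, hr, hF⟩ g v hv hΓ
    refine final_step' R htf ε hε g v hv hΓ fun hnil => ?_
    have hunit : IsUnit (R.r ⟨g * v * g⁻¹, hΓ⟩) :=
      (Group.isUnit (⟨g * v * g⁻¹, hΓ⟩ : Γ)).map R.r
    obtain ⟨σ, hσ, l, hl, hl1, hlow⟩ := h k K F S _ hs hr hF hunit
      (fun σ hσ l hl => R.comp' _ σ hσ l hl) hnil
    exact ⟨σ, hσ, l, hl, heps l hlow hl1⟩
  · intro G _ M ρ Γ k K F _ _ _ _ _ _ _ _ E r s n S R htf hs hr hF hE γ hγ
    obtain ⟨σ, hσ, l, hl, hl1, hlow⟩ := Pool.Agent.U189.MI.large_ram hp he E s r n k K F S (R.r γ)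
      hs hr hF hE ((Group.isUnit γ).map R.r) (fun σ hσ l hl => R.comp' _ σ hσ l hl)
      (aux R htf γ hγ)
    have hl' : IsEig (conjMat σ (R.r γ)) l := hl
    refine ⟨σ, hσ, l, hl', R.eig σ hσ γ l hl', hl1, ?_⟩
    rw [← Real.le_log_iff_exp_le (pow_pos (by linarith) _), Real.log_pow]
    exact hlow
  · intro F _ _ f B T hT hN
    exact Pool.Agent.Q262.RL.mass_of_res hp T hT hN

end Pool.Agent.Results.MP_162bbe_gt.LargeSubfields
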