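import Mathlib
import Pool.Agent.H225R3.MargDefs
import Pool.Agent.Y399.MG.H
import Pool.Agent.U189.LV.Primes

/-!
# Margulis' injectivity radius conjecture over number fields with about `√(d log d)` small primes

Let `Γ` be a group which is realized by integral `n × n` matrices over a number field `k` of degree
`d`, with the set `S` of noncompact embeddings (the arithmetic lattices of semisimple groups are of
this kind). There is no congruence condition on `Γ`. We prove: if `k` has `R ≥ 1` prime ideals of the
same norm `q`, then every `γ` in `Γ` of infinite order has an eigenvalue `l` under one of the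
noncompact embeddings with

`18 (q ^ n - 1) |S| log |l| ≥ min (Λ, Λ ^ 2 / (d log (2 n d)))`, `Λ = R log q / n ^ 2`.

So Margulis' conjecture holds for all the torsion-free arithmetic groups (of given `n` and `|S| ≤ s`)
over all number fields `k` which have at least `b √(d log (2 d))` prime ideals of norm at most `Q`,
for every `b > 0` and `Q`. More generally, `q` and `|S|` may grow with `d`, if
`R ≥ b q ^ n |S|` and `R ≥ √(b q ^ n |S| d log (2 d))`.

The starting result `CongruenceLevels`, (2), is about fields with `b d ^ (1 / 2 + η)` prime ideals of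
norm `q`, where `q ^ (n * n) ≤ E d ^ (η / 4)`, with bounded `|S|` and without explicit constants. (The
starting results `BoundedResidueDegrees` and `FrobeniusAutomorphisms` are about fields for which the
prime ideals of bounded norm account for a positive proportion of the degree; here the proportion can
be as small as `√(log d / d)`.)

Method. An eigenvalue `y` of `γ` which is not a root of unity generates an extension `L` of `k` of
degree at most `n`. By the pigeonhole principle there is `f ≤ n` such that at least `R / n` of the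
given prime ideals of `k` lie below prime ideals of `L` with relative residue degree `f`; so
`y ^ (q ^ f - 1) ≡ 1` modulo an ideal of `L` of norm at least `q ^ (f R / n)`. (In the starting result
the order of the finite group `GL_n (F_q)`, about `q ^ (n * n)`, is used instead of `q ^ f - 1`.) Then
the product of the differences of the first `K + 1` powers of `y ^ (q ^ f - 1)` is estimated by
Hadamard's inequality.

`Pool.Agent.H225R3.MargDefs` contains the definitions: `Realization ρ Γ k n S` (a homomorphism `r`
from `Γ` to the `n` by `n` matrices over the ring of integers of the number field `k`, bounded under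
all embeddings outside `S`, such that for `σ` in `S` the eigenvalues of `σ (r γ)` are eigenvalues of
`ρ γ`, and such that only `1` is mapped to a unipotent matrix), `IsEig` (being an eigenvalue),
`conjMat` (applying an embedding to a matrix) and `UniformlyDiscrete` (there is an identity
neighbourhood `U` such that `g U g⁻¹` meets every group of the family in the identity only).
-/

set_option autoImplicit false

namespace Pool.Agent.Results.MP_162bbe_gt.ManySmallPrimes

open NumberField Module Pool.Agent.H225R3.Marg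

universe u

/-- There is no element of finite order other than the identity. -/
def TorsionFree {G : Type*} [Group G] (Γ : Subgroup G) : Prop :=
  ∀ γ ∈ Γ, ∀ N : ℕ, 0 < N → γ ^ N = 1 → γ = 1

/-- `P` is a nonempty finite set of prime ideals of norm `q` of the number field `k`. -/
def OfNorm (q : ℕ) {k : Type} [Field k] [NumberField k] (P : Finset (Ideal (𝓞 k))) : Prop :=
  P.Nonempty ∧ ∀ I ∈ P, I.IsPrime ∧ I ≠ ⊥ ∧ Ideal.absNorm I = q

/-- `min (Λ, Λ ^ 2 / (d log (2 n d)))`, where `Λ = R log q / n ^ 2`. -/
noncomputable def size (d n q R : ℕ) : ℝ :=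
  min (R * Real.log q / n ^ 2) ((R * Real.log q / n ^ 2) ^ 2 / (d * Real.log (2 * n * d)))

/-- The torsion-free subgroups `Γ` of `G` that have a realization by matrices of size `n`, with the
set `S` of noncompact embeddings, over a number field `k`, of any degree `d`, which has `R ≥ 1` prime
ideals of the same norm `q`, with `R ≥ b q ^ n |S|` and `R ^ 2 ≥ b q ^ n |S| d log (2 d)`. There is no
congruence condition. -/
def Family (b : ℝ) (n : ℕ) {G : Type*} [Group G] {M : ℕ} (ρ : G →* Matrix (Fin M) (Fin M) ℂ) :
    Set (Subgroup G) :=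
  {Γ | TorsionFree Γ ∧
    ∃ (k : Type) (_ : Field k) (_ : NumberField k) (S : Finset (k →+* ℂ))
      (_ : Realization ρ Γ k n S) (q : ℕ) (P : Finset (Ideal (𝓞 k))), OfNorm q P ∧
      b * (q ^ n * S.card) ≤ P.card ∧
      b * (q ^ n * S.card) * (finrank ℚ k * Real.log (2 * finrank ℚ k)) ≤ (P.card : ℝ) ^ 2}

/-- The torsion-free subgroups `Γ` of `G` that have a realization by matrices of size `n`, with at most
`s` noncompact embeddings, over a number field `k`, of any degree `d`, which has at least
`b √(d log (2 d))` prime ideals of norm at most `Q`. There is no congruence condition. -/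
def SmallPrimes (b : ℝ) (n s Q : ℕ) {G : Type*} [Group G] {M : ℕ}
    (ρ : G →* Matrix (Fin M) (Fin M) ℂ) : Set (Subgroup G) :=
  {Γ | TorsionFree Γ ∧
    ∃ (k : Type) (_ : Field k) (_ : NumberField k) (S : Finset (k →+* ℂ))
      (_ : Realization ρ Γ k n S) (P : Finset (Ideal (𝓞 k))), S.card ≤ s ∧
      (∀ I ∈ P, I.IsPrime ∧ I ≠ ⊥ ∧ Ideal.absNorm I ≤ Q) ∧
      b * √(finrank ℚ k * Real.log (2 * finrank ℚ k)) ≤ P.card}

/-- **Margulis' conjecture for number fields with many small primes.**

1. Let `Γ` be a subgroup of `G` with a realization of size `n` over a number field `k` of degree `d`,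
   with the set `S` of noncompact embeddings. Every `γ` in `Γ` of infinite order has an eigenvalue `l`
   under one of the noncompact embeddings, which is also an eigenvalue of `ρ γ`, with `|l| > 1` and
   `size d n q R ≤ 18 (q ^ n - 1) |S| log |l|` if `k` has `R ≥ 1` prime ideals of norm `q`.
2. For all `b > 0` and `n` the family `Family b n ρ` of subgroups of a topological group `G` is
   uniformly discrete, for every continuous finite dimensional complex representation `ρ` of `G`.
3. For all `b > 0`, `n`, `s` and `Q` the family `SmallPrimes b n s Q ρ` is uniformly discrete. -/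
theorem result :
    (∀ (G : Type u) [Group G] (M : ℕ) (ρ : G →* Matrix (Fin M) (Fin M) ℂ)
      (Γ : Subgroup G) (k : Type) [Field k] [NumberField k] (n : ℕ) (S : Finset (k →+* ℂ))
      (R : Realization ρ Γ k n S) (γ : Γ), ¬ IsOfFinOrder γ →
      ∃ σ ∈ S, ∃ l : ℂ, IsEig (conjMat σ (R.r γ)) l ∧ IsEig (ρ γ) l ∧ 1 < ‖l‖ ∧
        ∀ (q : ℕ) (P : Finset (Ideal (𝓞 k))), OfNorm q P →
          size (finrank ℚ k) n q P.card ≤ 18 * ((q : ℝ) ^ n - 1) * S.card * Real.log ‖l‖) ∧
    (∀ (G : Type u) [Group G] [TopologicalSpace G] (M : ℕ) (ρ : G →* Matrix (Fin M) (Fin M) ℂ),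
      Continuous ρ → ∀ b : ℝ, 0 < b → ∀ n : ℕ, UniformlyDiscrete (Family b n ρ)) ∧
    (∀ (G : Type u) [Group G] [TopologicalSpace G] (M : ℕ) (ρ : G →* Matrix (Fin M) (Fin M) ℂ),
      Continuous ρ → ∀ b : ℝ, 0 < b → ∀ n s Q : ℕ, UniformlyDiscrete (SmallPrimes b n s Q ρ)) := by
  have main2 : ∀ (G : Type u) [Group G] [TopologicalSpace G] (M : ℕ)
      (ρ : G →* Matrix (Fin M) (Fin M) ℂ),
      Continuous ρ → ∀ b : ℝ, 0 < b → ∀ n : ℕ, UniformlyDiscrete (Family b n ρ) := by
    intro G _ _ M ρ hρ b hb n
    rcases Nat.eq_zero_or_pos n with hn | hn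
    · -- there are no eigenvalues
      subst hn
      refine ⟨Set.univ, Filter.univ_mem, ?_⟩
      rintro Γ ⟨htf, k, _, _, S, R, q, P, hP, hb1, hb2⟩ g v - hΓ
      have : IsNilpotent (R.r ⟨g * v * g⁻¹, hΓ⟩ - 1) := by
        have h0 : R.r ⟨g * v * g⁻¹, hΓ⟩ - 1 = 0 := Subsingleton.elim _ _
        rw [h0]
        exact IsNilpotent.zero
      exact congrArg Subtype.val (R.unipotent _ this)
    have hlog2 : 0 < Real.log 2 := Real.log_pos (by norm_num)
    have hnR : (1 : ℝ) ≤ n := by exact_mod_cast hn
    set c : ℝ := Real.log (2 * n) / Real.log 2 with hc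
    have hc0 : 0 < c := div_pos (Real.log_pos (by linarith)) hlog2
    set a : ℝ := min (Real.log 2 / n ^ 2) ((Real.log 2 / n ^ 2) ^ 2 / c) with ha
    have ha0 : 0 < a := lt_min (by positivity) (by positivity)
    obtain ⟨ε, hε, heps⟩ := Pool.Agent.Y399.MG.exists_eps 18 (b * a) (by positivity)
    refine ⟨_, nhd ρ hρ ε hε, ?_⟩
    rintro Γ ⟨htf, k, _, _, S, R, q, P, hP, hb1, hb2⟩ g v hv hΓ
    refine final_step' R htf ε hε g v hv hΓ fun hnil => ?_
    have hunit : IsUnit (R.r ⟨g * v * g⁻¹, hΓ⟩) :=
      (Group.isUnit (⟨g * v * g⁻¹, hΓ⟩ : Γ)).map R.r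
    obtain ⟨σ, hσ, l, hl, hl1, h⟩ := Pool.Agent.U189.LV.primes S _ hunit
      (fun σ hσ l hl => R.comp' _ σ hσ l hl) hnil
    refine ⟨σ, hσ, l, hl, heps l ?_ hl1⟩
    have h1 := h q P hP.1 hP.2
    have hr0 : 0 < Real.log ‖l‖ := Real.log_pos hl1
    have hS : (0 : ℝ) < S.card := by exact_mod_cast Finset.card_pos.mpr R.nonempty
    have hq2 : 2 ≤ q := by
      obtain ⟨I, hI⟩ := hP.1
      obtain ⟨h1, h2, h3⟩ := hP.2 I hI
      rw [← h3]
      have hne0 : Ideal.absNorm I ≠ 0 := fun h => h2 (Ideal.absNorm_eq_zero_iff.mp h)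
      have hne1 : Ideal.absNorm I ≠ 1 := fun h => h1.ne_top (Ideal.absNorm_eq_one_iff.mp h)
      omega
    have hqR : (2 : ℝ) ≤ q := by exact_mod_cast hq2
    have hqn : (0 : ℝ) < (q : ℝ) ^ n := by positivity
    set d : ℝ := (finrank ℚ k : ℝ) with hd
    have hd1 : 1 ≤ d := by
      have h0 : 1 ≤ finrank ℚ k := finrank_pos
      rw [hd]
      exact_mod_cast h0
    set B : ℝ := b * (q ^ n * S.card) with hB
    have hB0 : 0 < B := by positivity
    have hlogd : 0 < Real.log (2 * d) := Real.log_pos (by linarith)
    have hlogq : Real.log 2 ≤ Real.log q := Real.log_le_log (by norm_num) hqR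
    have hP0 : (0 : ℝ) < P.card := hB0.trans_le hb1
    have hlognd : Real.log (2 * n * d) ≤ c * Real.log (2 * d) := by
      have h5 : Real.log (2 * n * d) = Real.log n + Real.log (2 * d) := by
        rw [← Real.log_mul (by positivity) (by positivity)]
        congr 1
        ring
      have h6 : Real.log (2 * n) = Real.log 2 + Real.log n :=
        Real.log_mul (by norm_num) (by positivity)
      have h7 : 0 ≤ Real.log (n : ℝ) := Real.log_nonneg hnR
      have h8 : Real.log 2 ≤ Real.log (2 * d) := Real.log_le_log (by norm_num) (by linarith)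
      have h9 : c = 1 + Real.log n / Real.log 2 := by
        rw [hc, h6]
        field_simp
      have h10 : Real.log n ≤ Real.log n / Real.log 2 * Real.log (2 * d) := by
        rw [div_mul_eq_mul_div, le_div_iff₀ hlog2]
        exact mul_le_mul_of_nonneg_left h8 h7
      rw [h5, h9, add_mul, one_mul]
      linarith
    have hlognd0 : 0 < Real.log (2 * n * d) := Real.log_pos (by nlinarith)
    have hΛ : Real.log 2 / n ^ 2 * P.card ≤ P.card * Real.log q / n ^ 2 := by
      rw [div_mul_eq_mul_div, mul_comm]
      exact div_le_div_of_nonneg_right (mul_le_mul_of_nonneg_left hlogq hP0.le) (by positivity)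
    have hkey : a * B ≤ min (P.card * Real.log q / n ^ 2) ((P.card * Real.log q / n ^ 2) ^ 2 /
        (d * Real.log (2 * n * d))) := by
      refine le_min ?_ ?_
      · calc a * B ≤ Real.log 2 / n ^ 2 * P.card :=
              mul_le_mul (min_le_left _ _) hb1 hB0.le (by positivity)
          _ ≤ _ := hΛ
      · rw [le_div_iff₀ (by positivity)]
        calc a * B * (d * Real.log (2 * n * d))
            ≤ (Real.log 2 / n ^ 2) ^ 2 / c * B * (d * (c * Real.log (2 * d))) := by
              refine mul_le_mul (mul_le_mul_of_nonneg_right (min_le_right _ _) hB0.le)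
                (mul_le_mul_of_nonneg_left hlognd (by positivity)) (by positivity) (by positivity)
          _ = (Real.log 2 / n ^ 2) ^ 2 * (B * (d * Real.log (2 * d))) := by
              field_simp
          _ ≤ (Real.log 2 / n ^ 2) ^ 2 * (P.card : ℝ) ^ 2 :=
              mul_le_mul_of_nonneg_left hb2 (by positivity)
          _ = (Real.log 2 / n ^ 2 * P.card) ^ 2 := by ring
          _ ≤ _ := pow_le_pow_left₀ (by positivity) hΛ 2
    have h2 := hkey.trans h1
    have h3 : 18 * (((q : ℝ) ^ n - 1) * S.card * Real.log ‖l‖) ≤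
        18 * ((q : ℝ) ^ n * S.card * Real.log ‖l‖) := by
      have : ((q : ℝ) ^ n - 1) * (S.card * Real.log ‖l‖) ≤ (q : ℝ) ^ n * (S.card * Real.log ‖l‖) :=
        mul_le_mul_of_nonneg_right (by linarith) (by positivity)
      linarith
    have h4 : ((q : ℝ) ^ n * S.card) * (b * a) ≤
        ((q : ℝ) ^ n * S.card) * ((18 : ℕ) * Real.log ‖l‖) := by
      push_cast
      have h5 := h2.trans h3
      rw [hB] at h5
      linarith
    exact le_of_mul_le_mul_left h4 (by positivity)
  refine ⟨?_, main2, ?_⟩
  · intro G _ M ρ Γ k _ _ n S R γ hγ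
    obtain ⟨σ, hσ, l, hl, hl1, h⟩ := Pool.Agent.U189.LV.primes S (R.r γ)
      ((Group.isUnit γ).map R.r) (fun σ hσ l hl => R.comp' _ σ hσ l hl) (fun N hN h0 => by
        rw [← map_pow] at h0
        exact hγ (isOfFinOrder_iff_pow_eq_one.mpr ⟨N, hN, R.unipotent _ h0⟩))
    have hl' : IsEig (conjMat σ (R.r γ)) l := hl
    refine ⟨σ, hσ, l, hl', R.eig σ hσ γ l hl', hl1, fun q P hP => ?_⟩
    have h1 := h q P hP.1 hP.2
    unfold size
    linarith
  · intro G _ _ M ρ hρ b hb n s Q
    set b' : ℝ := min (1 / ((Q : ℝ) ^ n * s + 1)) ((b / (Q + 1)) ^ 2 / ((Q : ℝ) ^ n * s + 1))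
      with hb'
    have hpos : (0 : ℝ) < (Q : ℝ) ^ n * s + 1 := by positivity
    have hb'0 : 0 < b' := lt_min (by positivity) (by positivity)
    obtain ⟨U, hU, h⟩ := main2 G M ρ hρ b' hb'0 n
    refine ⟨U, hU, fun Γ hΓ => h Γ ?_⟩
    obtain ⟨htf, k, _, _, S, R, P, hs, hP, hcard⟩ := hΓ
    classical
    set d : ℝ := (finrank ℚ k : ℝ) with hd
    have hd1 : 1 ≤ d := by
      have h0 : 1 ≤ finrank ℚ k := finrank_pos
      rw [hd]
      exact_mod_cast h0
    have hlogd : 0 < Real.log (2 * d) := Real.log_pos (by linarith)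
    have hD0 : 0 < d * Real.log (2 * d) := by positivity
    have hPpos : (0 : ℝ) < P.card := lt_of_lt_of_le (by positivity) hcard
    -- pigeonhole
    obtain ⟨q, hq, hq'⟩ := Finset.exists_le_card_fiber_of_nsmul_le_card_of_maps_to
      (s := P) (t := Finset.range (Q + 1)) (f := fun I => Ideal.absNorm I)
      (b := (P.card : ℝ) / (Q + 1))
      (fun I hI => Finset.mem_range.mpr (Nat.lt_succ_of_le (hP I hI).2.2))
      ⟨0, Finset.mem_range.mpr (Nat.succ_pos _)⟩
      (by
        rw [Finset.card_range, nsmul_eq_mul]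
        push_cast
        rw [mul_div_cancel₀ _ (by positivity)])
    set P' := P.filter fun I => Ideal.absNorm I = q with hP'
    have hP'pos : (0 : ℝ) < P'.card := lt_of_lt_of_le (by positivity) hq'
    have hP'1 : 1 ≤ P'.card := by exact_mod_cast hP'pos
    have hP'1R : (1 : ℝ) ≤ P'.card := by exact_mod_cast hP'1
    have hqQ : q ≤ Q := Nat.lt_succ_iff.mp (Finset.mem_range.mp hq)
    have hqs : (q : ℝ) ^ n * S.card ≤ (Q : ℝ) ^ n * s + 1 := by
      have h1 : (q : ℝ) ^ n ≤ (Q : ℝ) ^ n := pow_le_pow_left₀ (by positivity) (by exact_mod_cast hqQ) n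
      have h2 : (S.card : ℝ) ≤ s := by exact_mod_cast hs
      have h3 := mul_le_mul h1 h2 (by positivity) (by positivity)
      linarith
    refine ⟨htf, k, _, _, S, R, q, P', ⟨Finset.card_pos.mp hP'1, fun I hI => ?_⟩, ?_, ?_⟩
    · rw [hP', Finset.mem_filter] at hI
      obtain ⟨h1, h2, -⟩ := hP I hI.1
      exact ⟨h1, h2, hI.2⟩
    · calc b' * ((q : ℝ) ^ n * S.card) ≤ 1 / ((Q : ℝ) ^ n * s + 1) * ((Q : ℝ) ^ n * s + 1) :=
            mul_le_mul (min_le_left _ _) hqs (by positivity) (by positivity)
        _ = 1 := by rw [one_div, inv_mul_cancel₀ hpos.ne']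
        _ ≤ _ := hP'1R
    · calc b' * ((q : ℝ) ^ n * S.card) * (d * Real.log (2 * d))
          ≤ (b / (Q + 1)) ^ 2 / ((Q : ℝ) ^ n * s + 1) * ((Q : ℝ) ^ n * s + 1) *
            (d * Real.log (2 * d)) :=
            mul_le_mul_of_nonneg_right
              (mul_le_mul (min_le_right _ _) hqs (by positivity) (by positivity)) hD0.le
        _ = (b * √(d * Real.log (2 * d)) / (Q + 1)) ^ 2 := by
            rw [div_mul_cancel₀ _ hpos.ne', div_pow, div_pow, mul_pow, Real.sq_sqrt hD0.le]
            ring
        _ ≤ (P'.card : ℝ) ^ 2 := by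
            refine pow_le_pow_left₀ (by positivity) (le_trans ?_ hq') 2
            exact div_le_div_of_nonneg_right hcard (by positivity)

end Pool.Agent.Results.MP_162bbe_gt.ManySmallPrimes
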