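import Mathlib
import Pool.Agent.U189.MI.Disc
import Pool.Agent.U189.MI.Gen

/-!
# Margulis' injectivity radius conjecture and subfields of finite exponent

Fix an integer `m ≥ 1`. Let `k` be a number field which contains a field `F` whose Galois closure has
a Galois group of exponent dividing `m` (for instance: `F` is generated by elements of degree at most
`d`, and `m = lcm (1, …, d)`). The arithmetic groups over `k` satisfy Margulis' conjecture if `F` is
not too small: all torsion-free arithmetic groups over these fields, realized by integral matrices of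
a fixed size `n`, with at most `s` noncompact embeddings, form a uniformly discrete family, provided
that `[F : ℚ] ≥ c (log [k : F]) ^ (2 m + 1) / (log log [k : F]) ^ (m + 2)`. The index `[k : F]` is not
bounded, and nothing is assumed on `k` itself, on the Galois closure of `k` or on the noncompact
embeddings. There is a similar theorem with `m` not fixed, `[F : ℚ] ≥ [k : ℚ] ^ δ` and
`m log log [k : ℚ] ≤ c log [k : ℚ]`.

These are consequences of an explicit bound: there is an absolute constant `C` such that every `γ ≠ 1`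
in such a group `Γ` has an eigenvalue `l` under one of the noncompact embeddings with
`|l| ^ (s n) ≥ exp ([F : ℚ] / (s n) * W)`,
`W = (log B) ^ (m + 2) / ((C m ^ 2) ^ (m + 1) B ^ (2 m + 1))`, `B = C + m ^ 2 + log (n [k : F])`. If `n`,
`s`, `m` and `[k : F]` are fixed, the injectivity radius grows at least linearly with `[k : ℚ]`.
Instead of the exponent of the Galois group it suffices to control the local degrees of `F` at most
of the small primes.

Method. The theorem on Mahler measures for factors of degree `D` over a Galois extension of `ℚ` of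
exponent `m` of `MP_7ab245_nt/RelativeDobrowolski` (or with control of the local degrees of `F`) and
the transfer principle of `MP_162bbe_gt/RamifiedFields`, which needs a lower bound for the Mahler
measure of integers `β`, not `0` or a root of unity, which generate a field `M`, such that
`[L : M] ≤ s n` for an extension `L` of `k` with `[L : k] ≤ n`. The field `M` need not contain `F`.
But `β`, as an element of `L`, has degree at most `[L : F] ≤ n [k : F]` over `F`, and its degree over
`ℚ` is `[L : ℚ] / [L : M]`; so the quotient of the degrees over `ℚ` and over `F` is at least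
`[F : ℚ] / (s n)`.

`Pool.Agent.H225R3.MargDefs` contains the definitions: `Realization ρ Γ k n S` (a homomorphism `r`
from `Γ` to the `n` by `n` matrices over the ring of integers of the number field `k`, bounded under
all embeddings outside `S`, such that for `σ` in `S` the eigenvalues of `σ (r γ)` are eigenvalues of
`ρ γ`, and such that only `1` is mapped to a unipotent matrix), `IsEig` (being an eigenvalue),
`conjMat` (applying an embedding to a matrix) and `UniformlyDiscrete` (there is an identity
neighbourhood `U` such that `g U g⁻¹` meets every group of the family in the identity only).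
-/

set_option autoImplicit false

namespace Pool.Agent.Results.MP_162bbe_gt.SubfieldsOfFiniteExponent

open NumberField Module Pool.Agent.H225R3.Marg

universe u

/-- `F` can be embedded in a Galois extension of `ℚ` (of finite or infinite degree) all of whose
automorphisms have order dividing `m`. -/
def FiniteExponent (m : ℕ) (F : Type) [Field F] [NumberField F] : Prop :=
  ∃ (E : Type) (_ : Field E) (_ : CharZero E) (_ : IsGalois ℚ E), (∀ σ : E ≃ₐ[ℚ] E, σ ^ m = 1) ∧
    Nonempty (F →+* E)

/-- All prime ideals of `F` above `p` have residue degree dividing `m` (that is `x ^ (p ^ m) = x` for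
all `x` in the residue field) and ramification index at most `m`. -/
def LocalDegrees (F : Type) [Field F] [NumberField F] (m p : ℕ) : Prop :=
  ∀ Q : Ideal (𝓞 F), Q.IsPrime → (p : 𝓞 F) ∈ Q →
    (∀ x : 𝓞 F, x ^ p ^ m - x ∈ Q) ∧ (p : 𝓞 F) ∉ Q ^ (m + 1)

/-- The quantity `(log B) ^ (m + 2) / ((C m ^ 2) ^ (m + 1) B ^ (2 m + 1))`. -/
noncomputable def W (C : ℝ) (m : ℕ) (B : ℝ) : ℝ :=
  Real.log B ^ (m + 2) / ((C * m ^ 2) ^ (m + 1) * B ^ (2 * m + 1))

/-- There is no element of finite order other than the identity. -/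
def TorsionFree {G : Type*} [Group G] (Γ : Subgroup G) : Prop :=
  ∀ γ ∈ Γ, ∀ N : ℕ, 0 < N → γ ^ N = 1 → γ = 1

/-- Every `γ ≠ 1` in `Γ` has an eigenvalue `l` under one of the noncompact embeddings, which is also
an eigenvalue of `ρ γ`, with `|l| > 1` and `|l| ^ N ≥ μ`. -/
def EigenvalueBound {G : Type*} [Group G] {M : ℕ} {ρ : G →* Matrix (Fin M) (Fin M) ℂ}
    {Γ : Subgroup G} {k : Type} [Field k] [NumberField k] {n : ℕ} {S : Finset (k →+* ℂ)}
    (R : Realization ρ Γ k n S) (N : ℕ) (μ : ℝ) : Prop :=
  ∀ γ : Γ, γ ≠ 1 → ∃ σ ∈ S, ∃ l : ℂ, IsEig (conjMat σ (R.r γ)) l ∧ IsEig (ρ γ) l ∧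
    1 < ‖l‖ ∧ μ ≤ ‖l‖ ^ N

/-- The torsion-free subgroups `Γ` of `G` that have a realization by matrices of size `n`, with at
most `s` noncompact embeddings, over a number field `k` with a subfield `F` such that `P k F`. -/
def Family (P : ∀ (k F : Type) [Field k] [NumberField k] [Field F] [NumberField F] [Algebra F k],
      Prop) (s n : ℕ) {G : Type*} [Group G] {M : ℕ} (ρ : G →* Matrix (Fin M) (Fin M) ℂ) :
    Set (Subgroup G) :=
  {Γ | TorsionFree Γ ∧
    ∃ (k : Type) (_ : Field k) (_ : NumberField k) (S : Finset (k →+* ℂ))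
      (_ : Realization ρ Γ k n S) (F : Type) (_ : Field F) (_ : NumberField F) (_ : Algebra F k),
      S.card ≤ s ∧ P k F}

/-- `F` can be embedded in a Galois extension of exponent `m`, or `LocalDegrees F m p` holds for all
but at most `m + log [k : F]` primes `p`. -/
def Controlled (m : ℕ) (k F : Type) [Field k] [NumberField k] [Field F] [NumberField F]
    [Algebra F k] : Prop :=
  FiniteExponent m F ∨ ∀ T : Finset ℕ, (∀ p ∈ T, p.Prime ∧ ¬ LocalDegrees F m p) →
    (T.card : ℝ) ≤ m + Real.log (finrank F k)

/-- **Margulis' conjecture for number fields with a subfield of finite exponent.**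

1. There is a constant `C > 0` such that the following holds. Let `Γ` be a torsion-free group with a
   realization `R` of size `n` over a number field `k`, with at most `s` noncompact embeddings, `F` a
   subfield of `k`, `m ≥ 1`, and `B ≥ C + m ^ 2 + log (n [k : F])`. If `F` can be embedded in a Galois
   extension of `ℚ` of exponent `m`, or if `LocalDegrees F m p` holds for all but at most `B` of the
   primes `p ≤ C m ^ 2 B ^ 2 / log B`, then every `γ ≠ 1` in `Γ` has an eigenvalue `l` under one of
   the noncompact embeddings, which is also an eigenvalue of `ρ γ`, with `|l| > 1` and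
   `|l| ^ (s n) ≥ exp ([F : ℚ] / (s n) * W C m B)`.
2. Let `ρ` be a continuous finite dimensional complex representation of a topological group `G`. For
   all `m ≥ 1`, `c > 0`, `s` and `n`, the family of all torsion-free subgroups of `G` that are realized
   by integral matrices of size `n`, with at most `s` noncompact embeddings, over a number field `k`
   which has a subfield `F` with `Controlled m k F` and
   `[F : ℚ] (log log (3 + [k : F])) ^ (m + 2) ≥ c (log (3 + [k : F])) ^ (2 m + 1)`
   is uniformly discrete.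
3. For all `δ > 0` and `n` there is `c > 0` such that for all `s` and `ρ` the family of all
   torsion-free subgroups of `G` that are realized by integral matrices of size `n`, with at most `s`
   noncompact embeddings, over a number field `k` which has a subfield `F` with
   `[F : ℚ] ≥ [k : ℚ] ^ δ` and `Controlled m k F` for some `m ≥ 1` with
   `m log log (3 [k : ℚ]) ≤ c log (3 [k : ℚ])`
   is uniformly discrete.
4. `FiniteExponent m F` holds if `F` is generated by elements of degree at most `d` and `m` is
   divisible by `1, …, d`. -/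
theorem result :
    (∃ C : ℝ, 0 < C ∧ ∀ (G : Type u) [Group G] (M : ℕ) (ρ : G →* Matrix (Fin M) (Fin M) ℂ)
      (Γ : Subgroup G) (k : Type) [Field k] [NumberField k] (n s : ℕ) (S : Finset (k →+* ℂ))
      (R : Realization ρ Γ k n S), TorsionFree Γ → S.card ≤ s →
      ∀ (F : Type) [Field F] [NumberField F] [Algebra F k] (m : ℕ), 0 < m →
      ∀ B : ℝ, C + m ^ 2 + Real.log (n * finrank F k) ≤ B →
      (FiniteExponent m F ∨ ∀ T : Finset ℕ, (∀ p ∈ T, p.Prime ∧
        (p : ℝ) ≤ C * m ^ 2 * B ^ 2 / Real.log B ∧ ¬ LocalDegrees F m p) → (T.card : ℝ) ≤ B) →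
      EigenvalueBound R (s * n) (Real.exp (finrank ℚ F / (s * n) * W C m B))) ∧
    (∀ (G : Type u) [Group G] [TopologicalSpace G] (M : ℕ) (ρ : G →* Matrix (Fin M) (Fin M) ℂ),
      Continuous ρ → ∀ m : ℕ, 0 < m → ∀ c : ℝ, 0 < c → ∀ s n : ℕ,
      UniformlyDiscrete (Family (fun k F => Controlled m k F ∧
        c * Real.log (3 + finrank F k) ^ (2 * m + 1) ≤
          finrank ℚ F * Real.log (Real.log (3 + finrank F k)) ^ (m + 2)) s n ρ)) ∧
    (∀ δ : ℝ, 0 < δ → ∀ n : ℕ, ∃ c : ℝ, 0 < c ∧ ∀ (G : Type u) [Group G] [TopologicalSpace G]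
      (M : ℕ) (ρ : G →* Matrix (Fin M) (Fin M) ℂ), Continuous ρ → ∀ s : ℕ,
      UniformlyDiscrete (Family (fun k F => (finrank ℚ k : ℝ) ^ δ ≤ finrank ℚ F ∧
        ∃ m : ℕ, 0 < m ∧ Controlled m k F ∧
          m * Real.log (Real.log (3 * finrank ℚ k)) ≤ c * Real.log (3 * finrank ℚ k)) s n ρ)) ∧
    (∀ (F : Type) [Field F] [NumberField F] (d m : ℕ),
      IntermediateField.adjoin ℚ {x : F | (minpoly ℚ x).natDegree ≤ d} = ⊤ →
      (∀ j, 1 ≤ j → j ≤ d → j ∣ m) → FiniteExponent m F) := by
  have aux : ∀ {G : Type u} [Group G] {M : ℕ} {ρ : G →* Matrix (Fin M) (Fin M) ℂ}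
      {Γ : Subgroup G} {k : Type} [Field k] [NumberField k] {n : ℕ} {S : Finset (k →+* ℂ)}
      (R : Realization ρ Γ k n S) (_ : TorsionFree Γ)
      (γ : Γ), γ ≠ 1 → ∀ N : ℕ, 0 < N → ¬ IsNilpotent (R.r γ ^ N - 1) := by
    intro G _ M ρ Γ k _ _ n S R htf γ hγ N hN h0
    rw [← map_pow] at h0
    have h1 := R.unipotent _ h0
    have h2 : (γ : G) ^ N = 1 := congrArg Subtype.val h1
    exact hγ (Subtype.ext (htf _ γ.2 N hN h2))
  refine ⟨?_, ?_, ?_, ?_⟩
  · obtain ⟨C, hC, h⟩ := Pool.Agent.U189.MI.eig
    refine ⟨C, by linarith, ?_⟩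
    intro G _ M ρ Γ k _ _ n s S R htf hs F _ _ _ m hm B hB hF γ hγ
    obtain ⟨σ, hσ, l, hl, hl1, hlow⟩ := h m hm k n s S (R.r γ) hs F B hB hF
      ((Group.isUnit γ).map R.r) (fun σ hσ l hl => R.comp' _ σ hσ l hl) (aux R htf γ hγ)
    have hl' : IsEig (conjMat σ (R.r γ)) l := hl
    refine ⟨σ, hσ, l, hl', R.eig σ hσ γ l hl', hl1, ?_⟩
    rw [← Real.le_log_iff_exp_le (pow_pos (by linarith) _), Real.log_pow]
    push_cast at hlow ⊢
    exact hlow
  · intro G _ _ M ρ hρ m hm c hc s n
    obtain ⟨ε, hε, h⟩ := Pool.Agent.U189.MI.disc_log m n s hm hc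
    refine ⟨_, nhd ρ hρ ε hε, ?_⟩
    rintro Γ ⟨htf, k, _, _, S, R, F, _, _, _, hs, hF, hdeg⟩ g v hv hΓ
    refine final_step' R htf ε hε g v hv hΓ fun hnil => ?_
    have hunit : IsUnit (R.r ⟨g * v * g⁻¹, hΓ⟩) :=
      (Group.isUnit (⟨g * v * g⁻¹, hΓ⟩ : Γ)).map R.r
    exact h k S _ hs F hF hdeg hunit (fun σ hσ l hl => R.comp' _ σ hσ l hl) hnil
  · intro δ hδ n
    obtain ⟨c, hc, h⟩ := Pool.Agent.U189.MI.disc_pow n hδ
    refine ⟨c, hc, ?_⟩
    intro G _ _ M ρ hρ s
    obtain ⟨ε, hε, h⟩ := h s
    refine ⟨_, nhd ρ hρ ε hε, ?_⟩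
    rintro Γ ⟨htf, k, _, _, S, R, F, _, _, _, hs, hdeg, m, hm, hF, hmc⟩ g v hv hΓ
    refine final_step' R htf ε hε g v hv hΓ fun hnil => ?_
    have hunit : IsUnit (R.r ⟨g * v * g⁻¹, hΓ⟩) :=
      (Group.isUnit (⟨g * v * g⁻¹, hΓ⟩ : Γ)).map R.r
    exact h m hm k S _ hs F hF hdeg hmc hunit (fun σ hσ l hl => R.comp' _ σ hσ l hl) hnil
  · intro F _ _ d m h hm
    exact Pool.Agent.U189.MI.exponent_of_generators d m hm F h

end Pool.Agent.Results.MP_162bbe_gt.SubfieldsOfFiniteExponent
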